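import Pool.Agent.L5helper98.ID.Defs

/-!
# From the total mass to its logarithm
-/

set_option autoImplicit false

open MeasureTheory ProbabilityTheory Filter Topology Set
open scoped ENNReal

namespace Pool.Agent.L5helper5.ID

open Pool.Agent.L5helper98.ID

lemma exp_mul_log (j : ℕ) (t : ℝ) (ht : t ≠ 0) : Real.exp (j * Real.log t) = |t| ^ j := by
  rw [Real.exp_nat_mul, Real.exp_log_eq_abs ht]

lemma pow_le_exp (j : ℕ) (hj : 1 ≤ j) (t : ℝ) : |t| ^ j ≤ Real.exp (j * Real.log t) := by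
  by_cases ht : t = 0
  · subst ht
    rw [abs_zero, zero_pow (by omega)]
    positivity
  · rw [exp_mul_log j t ht]

lemma exp_le_pow (j : ℕ) (t : ℝ) : Real.exp (j * Real.log t) ≤ |t| ^ j + 1 := by
  by_cases ht : t = 0
  · subst ht
    rw [Real.log_zero, mul_zero, Real.exp_zero]
    have : (0 : ℝ) ≤ |0| ^ j := by positivity
    linarith
  · rw [exp_mul_log j t ht]
    linarith

lemma exp_le_four (j : ℕ) (hj : j ≤ 4) (s : ℝ) :
    Real.exp (j * s) ≤ Real.exp ((4 : ℕ) * s) + 1 := by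
  have hj' : (j : ℝ) ≤ (4 : ℕ) := by exact_mod_cast hj
  have hj0 : (0 : ℝ) ≤ j := by positivity
  rcases le_total 0 s with hs | hs
  · have : Real.exp (j * s) ≤ Real.exp ((4 : ℕ) * s) :=
      Real.exp_le_exp.2 (mul_le_mul_of_nonneg_right hj' hs)
    linarith
  · have : Real.exp (j * s) ≤ 1 := Real.exp_le_one_iff.2 (mul_nonpos_of_nonneg_of_nonpos hj0 hs)
    have := Real.exp_pos ((4 : ℕ) * s)
    linarith

/-- the moments of the exponential of the logarithm -/
noncomputable def mo (τ : Measure ℝ) (j : ℕ) : ℝ≥0∞ :=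
  ∫⁻ t, ENNReal.ofReal (Real.exp (j * Real.log t)) ∂τ

lemma mo_ge (τ : Measure ℝ) (j : ℕ) (hj : 1 ≤ j) :
    ∫⁻ t, ENNReal.ofReal |t| ^ j ∂τ ≤ mo τ j := by
  refine lintegral_mono fun t => ?_
  rw [← ENNReal.ofReal_pow (abs_nonneg t)]
  exact ENNReal.ofReal_le_ofReal (pow_le_exp j hj t)

lemma mo_le (τ : Measure ℝ) [IsProbabilityMeasure τ] (j : ℕ) :
    mo τ j ≤ ∫⁻ t, ENNReal.ofReal |t| ^ j ∂τ + 1 := by
  have h1 : mo τ j ≤ ∫⁻ t, (ENNReal.ofReal |t| ^ j + 1) ∂τ := by
    refine lintegral_mono fun t => ?_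
    rw [← ENNReal.ofReal_pow (abs_nonneg t), ← ENNReal.ofReal_one,
      ← ENNReal.ofReal_add (by positivity) zero_le_one]
    exact ENNReal.ofReal_le_ofReal (exp_le_pow j t)
  refine h1.trans (le_of_eq ?_)
  rw [lintegral_add_right _ measurable_const, lintegral_const, measure_univ, mul_one]

lemma mo_le_four (τ : Measure ℝ) [IsProbabilityMeasure τ] (j : ℕ) (hj : j ≤ 4) :
    mo τ j ≤ mo τ 4 + 1 := by
  have h1 : mo τ j ≤ ∫⁻ t, (ENNReal.ofReal (Real.exp ((4 : ℕ) * Real.log t)) + 1) ∂τ := by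
    refine lintegral_mono fun t => ?_
    rw [← ENNReal.ofReal_one, ← ENNReal.ofReal_add (by positivity) zero_le_one]
    exact ENNReal.ofReal_le_ofReal (exp_le_four j hj _)
  refine h1.trans (le_of_eq ?_)
  rw [lintegral_add_right _ measurable_const, lintegral_const, measure_univ, mul_one]
  rfl

lemma integral_exp (τ : Measure ℝ) (j : ℕ) :
    ∫ y, Real.exp (j * y) ∂(τ.map Real.log) = (mo τ j).toReal := by
  rw [integral_map Real.measurable_log.aemeasurable
    (Continuous.aestronglyMeasurable (by fun_prop)),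
    integral_eq_lintegral_of_nonneg_ae (Eventually.of_forall fun t => (Real.exp_pos _).le)
    (Measurable.aestronglyMeasurable (by fun_prop))]
  rfl

theorem TRA2_holds : St_TRA2 := by
  intro τ hτ b1 b2 b3 b4 hb1 hb2 hb3 hb4 h1 h2 h3 h4
  have hm4 : mo τ 4 ≤ ENNReal.ofReal (b4 + 1) := by
    rw [ENNReal.ofReal_add hb4 zero_le_one, ENNReal.ofReal_one]
    exact (mo_le τ 4).trans (add_le_add_left h4 1)
  have hm2 : mo τ 2 ≤ ENNReal.ofReal (b2 + 1) := by
    rw [ENNReal.ofReal_add hb2 zero_le_one, ENNReal.ofReal_one]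
    exact (mo_le τ 2).trans (add_le_add_left h2 1)
  have h4t : mo τ 4 ≠ ⊤ := ne_top_of_le_ne_top ENNReal.ofReal_ne_top hm4
  have ht : ∀ j : ℕ, j ≤ 4 → mo τ j ≠ ⊤ := fun j hj =>
    ne_top_of_le_ne_top (by simp [h4t]) (mo_le_four τ j hj)
  have hm3 : ENNReal.ofReal b3 ≤ mo τ 3 := h3.trans (mo_ge τ 3 (by norm_num))
  have hm1 : ENNReal.ofReal b1 ≤ mo τ 1 := by
    refine h1.trans (le_trans (le_of_eq ?_) (mo_ge τ 1 le_rfl))
    simp
  have e4 := integral_exp τ 4
  have e2 := integral_exp τ 2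
  have e3 := integral_exp τ 3
  have e1 := integral_exp τ 1
  push_cast at e4 e2 e3 e1
  simp only [one_mul] at e1
  refine ⟨?_, ?_, ?_, ?_, ?_⟩
  · rw [integrable_map_measure (Continuous.aestronglyMeasurable (by fun_prop))
      Real.measurable_log.aemeasurable]
    refine ⟨Measurable.aestronglyMeasurable (by fun_prop), ?_⟩
    have h5 : HasFiniteIntegral (fun t => Real.exp ((4 : ℕ) * Real.log t)) τ := by
      rw [hasFiniteIntegral_iff_ofReal (Eventually.of_forall fun t => (Real.exp_pos _).le)]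
      exact lt_top_iff_ne_top.2 h4t
    refine h5.congr (Eventually.of_forall fun t => ?_)
    simp
  · rw [e4]
    exact ENNReal.toReal_le_of_le_ofReal (by linarith) hm4
  · rw [e2]
    exact ENNReal.toReal_le_of_le_ofReal (by linarith) hm2
  · rw [e3]
    exact (ENNReal.ofReal_le_iff_le_toReal (ht 3 (by norm_num))).1 hm3
  · rw [e1]
    exact (ENNReal.ofReal_le_iff_le_toReal (ht 1 (by norm_num))).1 hm1

end Pool.Agent.L5helper5.ID
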